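import Pool.Agent.H48.M32.Freq

/-!
# Every orbit shows all words of a given length at one cell of every long interval of cells

Take the base-6 automaton `F32` that multiplies by `3 / 2`. For every word length `L` there are numbers
`M`, `R` and `κ > 0` such that for every nonzero configuration whose cells vanish far to the left (for
instance every nonzero `0`-finite one) every interval `[c, c + M]` of cells contains a cell `j` with the
following property: for infinitely many `n` there are at least `κ n` times `T ≤ 2 ^ n` such that *every*
word of length `L` stands at `j` at some time between `T` and `T + R`. In particular every word of length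
`L` stands at `j` at infinitely many times.

The proof. The space-time diagrams form the symbolic `×2 ×3` system, on which the translations act.
* By Furstenberg's theorem (for `4` and `9`) a closed set invariant under `×6` (the shift) and `×3/2`
  (the automaton) is finite or everything.
* The automaton is transitive, so there is a nonempty open set `U` of diagrams all of whose points show
  every word of length `L` at the cell `0` in bounded time.
* If an orbit avoids `U` at all cells of a long interval of cells during the times between `T` and `2 T`,
  then by compactness it stays close to the finitely many diagrams that avoid `U` altogether, and hence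
  close to one periodic orbit. For large `T` this is impossible for the orbit of a positive real number
  `V` (`quant`): the integers closest to `((3 / 2) ^ k - 1) V (3 / 2) ^ n`, where `k` is a period, would
  be multiplied by exactly `3 / 2` at each step, so the first of them would be divisible by too high a
  power of `2`.
* So the orbit visits `U` at some cell of each interval of `M + 1` cells during every interval of times
  from `T` to `2 T`, `T` large (`winQ`), and the pigeonhole principle gives one cell (`count_aux`).
-/

set_option autoImplicit false

namespace Pool.Agent.Results.MP_881467_an.AllWordsOneCell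

/-- the local rule of the multiplication by `3` in base `6` -/
def f (s t : Fin 6) : Fin 6 := ⟨(3 * (s : ℕ)) % 6 + (3 * (t : ℕ)) / 6, by omega⟩

/-- multiplication by `3` -/
def F3 (x : ℤ → Fin 6) : ℤ → Fin 6 := fun i => f (x i) (x (i + 1))

/-- multiplication by `3 / 2` -/
def F32 (x : ℤ → Fin 6) : ℤ → Fin 6 := fun i => F3 (F3 x) (i - 1)

/-- the word `w` stands at the cell `j` of the configuration `x` -/
def Shows {L : ℕ} (x : ℤ → Fin 6) (w : Fin L → Fin 6) (j : ℤ) : Prop :=
  ∀ s : Fin L, x (j + (s : ℕ)) = w s

/-- For every `L` there are `M`, `R` and `κ > 0` such that for every configuration `x` that is not `0`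
and whose cells far to the left are `0` (for instance every nonzero `0`-finite `x`) and every cell `c`
there is a cell `j` with `c ≤ j ≤ c + M` such that for infinitely many `n` there are at least `κ n`
times `T ≤ 2 ^ n` such that every word `w` of length `L` stands at `j` in `F32^[t] x` for some `t` with
`T ≤ t ≤ T + R`. -/
theorem result (L : ℕ) : ∃ M R : ℕ, ∃ κ : ℝ, 0 < κ ∧ ∀ x : ℤ → Fin 6, (∃ i, x i ≠ 0) →
    (∃ m : ℤ, ∀ i < m, x i = 0) → ∀ c : ℤ, ∃ j : ℤ, c ≤ j ∧ j ≤ c + M ∧
      {n : ℕ | κ * n ≤ ({T : ℕ | T ≤ 2 ^ n ∧
        ∀ w : Fin L → Fin 6, ∃ t : ℕ, T ≤ t ∧ t ≤ T + R ∧ Shows (F32^[t] x) w j}.ncard : ℝ)}.Infinite := by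
  obtain ⟨M, R, κ, hκ, hM⟩ := Pool.Agent.H48.M32.winFreq L
  refine ⟨M, R, κ, hκ, fun x hx hl c => hM x ?_ hl c⟩
  rintro rfl
  obtain ⟨i, hi⟩ := hx
  exact hi rfl

end Pool.Agent.Results.MP_881467_an.AllWordsOneCell
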