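import Pool.Agent.H48.M32.LeftC

/-!
# Almost all cells show all words of a given length

Take the base-6 automaton `F32` that multiplies by `3 / 2`. For every `0`-finite configuration `x ≠ 0` and every `L`
all but few of the cells show every word of length `L` in the orbit of `x`:

* to the right of the last nonzero cell `e` of `x`: there are `θ < 1`, `κ > 0` and `K`, which depend on `L` only, such
  that among the `C` cells `e + 1, ..., e + C` at most `K C ^ θ` are such that some word of length `L` stands there
  at fewer than `κ log C` times;
* to the left of the first nonzero cell `m` of `x` (here `x` may have infinitely many nonzero cells to the right, so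
  that it represents an arbitrary positive real number): for all `n` and `ε > 0` there is `K`, which depends on `L`,
  `n`, `ε` only, such that among the `C` cells `m, m - 1, ..., m - C + 1` at most `ε C + K` are such that some word
  of length `L` stands there at fewer than `n` times.

The proof. The word at the cell `c` at the time `t` is read off from `V 6 ^ c (3 / 2) ^ t` modulo one, where `V` is the
number represented by `x`.

* Right: if `V = 2 ^ v b / 6 ^ (e + 1)` with an odd integer `b`, then at the cell `e + 1 + c` and the time `c + v + n`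
  this is `b 3 ^ (v + n) 9 ^ c / 2 ^ n` modulo one, which depends only on `c` modulo `2 ^ (n - 3)`. If `c` runs
  through the numbers `c₀ + 2 ^ k z`, `0 ≤ z < 2 ^ g`, then `9 ^ c` runs through all the classes modulo `2 ^ (k + 3 + g)`
  over a class modulo `2 ^ (k + 3)` (`surj`), so for `n = k + 3 + g` the points form a translate of `2 ^ (-g) ℤ / ℤ` and
  one of them hits a given arc (`hit`). For `k = 0, g, 2 g, ...` this gives about `log C` independent chances, and an
  estimate of an exponential moment (`wt_prod`, `few`) bounds the number of the cells with few hits.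
* Left: there are `r = 9 ^ a / 4 ^ b` as close to `1` as we like, `r > 1`. The passage from the cell `-c` and the time
  `t` to the cell `-(c + b - a)` and the time `t + a + b` multiplies `V 6 ^ c (3 / 2) ^ t` by `r`. So if `c` runs through
  an arithmetic progression with the difference `b - a`, then for a suitable scale of the values the points move
  slowly around the circle and one of them hits a given arc (`crossing`), while at the smaller scales considered before
  nothing changes (`stable`). Hence the proportion of the cells without a hit decreases by a constant factor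
  from scale to scale (`recur`).
-/

set_option autoImplicit false

namespace Pool.Agent.Results.MP_881467_an.AlmostAllCells

/-- the local rule of the multiplication by `3` in base `6` -/
def f (s t : Fin 6) : Fin 6 := ⟨(3 * (s : ℕ)) % 6 + (3 * (t : ℕ)) / 6, by omega⟩

/-- multiplication by `3` -/
def F3 (x : ℤ → Fin 6) : ℤ → Fin 6 := fun i => f (x i) (x (i + 1))

/-- multiplication by `3 / 2` -/
def F32 (x : ℤ → Fin 6) : ℤ → Fin 6 := fun i => F3 (F3 x) (i - 1)

/-- the word `w` stands at the cell `j` of the configuration `x` -/
def Shows {L : ℕ} (x : ℤ → Fin 6) (w : Fin L → Fin 6) (j : ℤ) : Prop :=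
  ∀ s : Fin L, x (j + (s : ℕ)) = w s

/-- in the orbit of `x` the word `w` stands at the cell `j` at at least `r` times -/
def Often {L : ℕ} (x : ℤ → Fin 6) (w : Fin L → Fin 6) (j : ℤ) (r : ℝ) : Prop :=
  ∃ S : Finset ℕ, r ≤ S.card ∧ ∀ t ∈ S, Shows (F32^[t] x) w j

/-- For every `L`:
* there are `θ < 1`, `κ > 0` and `K` such that for every `0`-finite `x ≠ 0` that vanishes to the right of the cell
  `e` and every `C ≥ 1` at most `K C ^ θ` of the numbers `c < C` are such that some word of length `L` stands at the
  cell `e + 1 + c` at fewer than `κ log C` times;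
* for all `n` and `ε > 0` there is `K` such that for every `x ≠ 0` that vanishes to the left of the cell `m` and every
  `C` at most `ε C + K` of the numbers `c < C` are such that some word of length `L` stands at the cell `m - c` at
  fewer than `n` times. -/
theorem result (L : ℕ) :
    (∃ θ κ K : ℝ, θ < 1 ∧ 0 < κ ∧ ∀ x : ℤ → Fin 6, (∃ i, x i ≠ 0) → (∃ m : ℤ, ∀ i < m, x i = 0) →
      ∀ e : ℤ, (∀ i, e < i → x i = 0) → ∀ C : ℕ, 1 ≤ C →
        ({c : ℕ | c < C ∧ ∃ w : Fin L → Fin 6, ¬ Often x w (e + 1 + c) (κ * Real.log C)}.ncard : ℝ) ≤
          K * (C : ℝ) ^ θ) ∧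
    (∀ (n : ℕ) (ε : ℝ), 0 < ε → ∃ K : ℝ, ∀ x : ℤ → Fin 6, (∃ i, x i ≠ 0) → ∀ m : ℤ, (∀ i < m, x i = 0) →
      ∀ C : ℕ, ({c : ℕ | c < C ∧ ∃ w : Fin L → Fin 6, ¬ Often x w (m - c) n}.ncard : ℝ) ≤ ε * C + K) := by
  constructor
  · obtain ⟨θ, κ, K, hθ, hκ, h⟩ := Pool.Agent.H48.M32.right L
    refine ⟨θ, κ, K, hθ, hκ, fun x hx => h x ?_⟩
    rintro rfl
    obtain ⟨i, hi⟩ := hx
    exact hi rfl
  · intro n ε hε
    obtain ⟨K, h⟩ := Pool.Agent.H48.M32.left L n ε hε
    refine ⟨K, fun x hx => h x ?_⟩
    rintro rfl
    obtain ⟨i, hi⟩ := hx
    exact hi rfl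

end Pool.Agent.Results.MP_881467_an.AlmostAllCells
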