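import Pool.Agent.H48.M32.Win

/-!
# For almost all integers the orbit shows all words of a given length at a given cell

Take the base-6 automaton `F32` that multiplies by `3 / 2`, and let `cfg b` be the `0`-finite
configuration of the natural number `b` (base-6 expansion of `b`, the digit of `6 ^ n` at the cell
`-n`). For every `L` there is `R` such that for all `δ > 0` there is `N₀` with: for every `a ≥ 1`, every
cell `c` and every interval of `N ≥ N₀` consecutive natural numbers, all but at most `δ N` of the `m` in
the interval have the following property: for infinitely many times `T` every word of length `L` stands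
at the cell `c` at some time between `T` and `T + R` in the orbit of `cfg (m a)`.

The proof: the set of limit points of `ξ (3 / 2) ^ t` modulo one is not covered by few small arcs,
uniformly in the positive rational number `ξ` (compactness, and the doubling of the denominator), so it
contains many points whose differences are uniformly far from all fractions with small denominators;
an exponential sum (second moment) estimate then shows that for most `m` the multiples by `m` of these
limit points are well distributed, so that all words of a given length `L'` recur at a given cell. This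
is applied to the length `L'` of a word that forces all words of length `L` in bounded time; it exists
because the automaton is transitive.
-/

set_option autoImplicit false

namespace Pool.Agent.Results.MP_881467_an.AlmostAllMultiples

/-- the local rule of the multiplication by `3` in base `6` -/
def f (s t : Fin 6) : Fin 6 := ⟨(3 * (s : ℕ)) % 6 + (3 * (t : ℕ)) / 6, by omega⟩

/-- multiplication by `3` -/
def F3 (x : ℤ → Fin 6) : ℤ → Fin 6 := fun i => f (x i) (x (i + 1))

/-- multiplication by `3 / 2` -/
def F32 (x : ℤ → Fin 6) : ℤ → Fin 6 := fun i => F3 (F3 x) (i - 1)

/-- the word `w` stands at the cell `j` of the configuration `x` -/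
def Shows {L : ℕ} (x : ℤ → Fin 6) (w : Fin L → Fin 6) (j : ℤ) : Prop :=
  ∀ s : Fin L, x (j + (s : ℕ)) = w s

/-- the `0`-finite configuration of the natural number `b`: the cell `-n`, `n ≥ 0`, holds the base-6
digit of `b` at `6 ^ n`, the cells `i > 0` hold `0` -/
def cfg (b : ℕ) : ℤ → Fin 6 := fun i => if i ≤ 0 then ⟨b / 6 ^ (-i).toNat % 6, Nat.mod_lt _ (by norm_num)⟩ else 0

/-- for infinitely many times `T` every word of length `L` stands at the cell `c` at some time between
`T` and `T + R` in the orbit of `x` -/
def Good (L R : ℕ) (x : ℤ → Fin 6) (c : ℤ) : Prop :=
  {T : ℕ | ∀ w : Fin L → Fin 6, ∃ t : ℕ, T ≤ t ∧ t ≤ T + R ∧ Shows (F32^[t] x) w c}.Infinite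

/-- For every `L` there is `R` such that for all `δ > 0` there is `N₀` such that for all `a ≥ 1`, all
cells `c` and all `A` and `N ≥ N₀` at most `δ N` of the integers `m` with `A ≤ m < A + N` fail to have
the property `Good L R (cfg (m a)) c`. -/
theorem result (L : ℕ) : ∃ R : ℕ, ∀ δ : ℝ, 0 < δ → ∃ N₀ : ℕ, ∀ a : ℕ, 0 < a → ∀ (c : ℤ) (A N : ℕ), N₀ ≤ N →
    ({m : ℕ | A ≤ m ∧ m < A + N ∧ ¬ Good L R (cfg (m * a)) c}.ncard : ℝ) ≤ δ * N :=
  Pool.Agent.H48.M32.winMult L

end Pool.Agent.Results.MP_881467_an.AlmostAllMultiples
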